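import Pool.Agent.PW.StmtsA
import Pool.Agent.PW.StmtsB

set_option autoImplicit false

/-! Row STP: one step, the good terms of dimension `ρ` are rewritten. -/

namespace Pool.Agent.PW.H14

open MvPolynomial
open Pool.Agent.RS (FF io)

section

variable {E : Type} [Field E]

theorem filt_mono {ρ c0 k : ℕ} {y : Fin ρ → MvPolynomial ℕ E} {J1 J2 : Finset ℕ}
    {Fi : ℕ → FF E → Prop} (h : J1 ⊆ J2) (hF : Filt c0 k y J2 Fi) : Filt c0 k y J1 Fi where
  zero := hF.zero
  add := hF.add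
  mul := hF.mul
  mono := hF.mono
  poly := hF.poly
  mem := hF.mem
  der0 := fun i hi => hF.der0 i (h hi)
  der := fun i hi => hF.der i (h hi)
  eul := fun z hz hzJ => hF.eul z hz fun b => h (hzJ b)
  unitJ := fun p h0 hv => hF.unitJ p h0 (hv.trans h)
  unitK := hF.unitK
  unitM := hF.unitM
  proper := hF.proper

theorem jun_inv {ρ c0 k : ℕ} {y : Fin ρ → MvPolynomial ℕ E} {J1 : Finset ℕ}
    {Fi : ℕ → FF E → Prop} (hF : Filt c0 k y J1 Fi) (b : MvPolynomial ℕ E) (hb : b ∈ JUN E k) :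
    Fi 0 (io E b)⁻¹ := by
  unfold JUN at hb
  induction hb using Submonoid.closure_induction with
  | mem x hx => exact hF.unitK x hx.1 hx.2
  | one =>
    have h1 := hF.poly 1
    rw [map_one] at h1 ⊢
    rw [inv_one]
    exact h1
  | mul x y _ _ hx hy =>
    have h1 := hF.mul 0 0 _ _ hx hy
    rw [map_mul, mul_inv]
    exact h1

theorem rr_fi {ρ c0 k : ℕ} {y : Fin ρ → MvPolynomial ℕ E} {J1 : Finset ℕ}
    {Fi : ℕ → FF E → Prop} (hF : Filt c0 k y J1 Fi) (w : FF E) (hw : RR k w) : Fi 0 w := by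
  obtain ⟨a, b, hb, rfl⟩ := hw
  have h1 := hF.mul 0 0 _ _ (hF.poly a) (jun_inv hF b hb)
  rw [div_eq_mul_inv]
  exact h1

/-- The data of a term. -/
def IsTm (c0 N R c ρ : ℕ) (H : FF E) (b : List (MvPolynomial ℕ E)) : Prop :=
  RR c H ∧ FG c ∅ H ∧ (∀ g ∈ b, g ≠ 0 ∧ IsUj c0 g) ∧ b.length ≤ R + 1 ∧
    (b.length = R + 1 → Robust N (Submodule.span E {g | g ∈ b}) →
      ρ ≤ Module.finrank E (Submodule.span E {g | g ∈ b}))

theorem decomp (hfgs : FgsStmt) (hrrs : RrsStmt) (c0 N R c ρ : ℕ) (W : FF E)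
    (hW : W ∈ GT E c0 N (R + 1) c ρ ⊔ BT E c0 N (R + 1) c ⊔ WW E c0 R c) :
    ∃ (n : ℕ) (H : Fin n → FF E) (b : Fin n → List (MvPolynomial ℕ E)),
      (∀ t, IsTm c0 N R c ρ (H t) (b t)) ∧ W = ∑ t, H t / io E (b t).prod := by
  classical
  have h1 : GT E c0 N (R + 1) c ρ ⊔ BT E c0 N (R + 1) c ⊔ WW E c0 R c ≤
      Submodule.span E {w | ∃ (H : FF E) (b : List (MvPolynomial ℕ E)), IsTm c0 N R c ρ H b ∧
        w = H / io E b.prod} := by
    refine sup_le (sup_le ?_ ?_) ?_
    · refine Submodule.span_mono ?_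
      rintro w ⟨H, b, h1, h2, h3, h4, h5, h6, rfl⟩
      exact ⟨H, b, ⟨h1, h2, h4, h3.le, fun _ _ => h6⟩, rfl⟩
    · refine Submodule.span_mono ?_
      rintro w ⟨H, b, h1, h2, h3, h4, h5, rfl⟩
      exact ⟨H, b, ⟨h1, h2, h4, h3.le, fun _ h => absurd h h5⟩, rfl⟩
    · refine Submodule.span_mono ?_
      rintro w ⟨H, b, h1, h2, h3, h4, rfl⟩
      exact ⟨H, b, ⟨h1, h2, h4, by omega, fun h => by omega⟩, rfl⟩
  have h2 := h1 hW
  rw [Submodule.mem_span_set'] at h2
  obtain ⟨n, f, g, rfl⟩ := h2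
  choose H b hT hg using fun t => (g t).2
  obtain ⟨S1, hS1⟩ := hfgs E c ∅
  obtain ⟨-, ⟨S2, hS2⟩, -⟩ := hrrs E c
  refine ⟨n, fun t => f t • H t, b, fun t => ?_, ?_⟩
  · obtain ⟨k1, k2, k3, k4, k5⟩ := hT t
    exact ⟨(hS2 _).1 (S2.smul_mem ((hS2 _).2 k1) _), (hS1 _).1 (S1.smul_mem _ ((hS1 _).2 k2)),
      k3, k4, k5⟩
  · refine Finset.sum_congr rfl fun t _ => ?_
    rw [hg t, smul_div_assoc]

/-- A basis, indexed by `Fin ρ`, of a subspace of dimension `ρ`. -/
theorem exists_basis {ρ : ℕ} (M : Submodule E (MvPolynomial ℕ E)) [Module.Finite E M]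
    (h : Module.finrank E M = ρ) : ∃ y : Fin ρ → MvPolynomial ℕ E, LinearIndependent E y ∧
      Submodule.span E (Set.range y) = M := by
  let B := Module.finBasisOfFinrankEq E M h
  refine ⟨fun a => (B a : MvPolynomial ℕ E), ?_, ?_⟩
  · exact B.linearIndependent.map' M.subtype (Submodule.ker_subtype M)
  · have h1 : Set.range (fun a => (B a : MvPolynomial ℕ E)) = M.subtype '' Set.range B := by
      rw [← Set.range_comp]
      rfl
    rw [h1, Submodule.span_image, B.span_eq, Submodule.map_subtype_top]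

theorem junta_set (hfgp : FgpStmt) [CharZero E] (c0 : ℕ) (b : List (MvPolynomial ℕ E))
    (hb : ∀ g ∈ b, IsUj c0 g) : ∃ G : Finset ℕ, G.card ≤ b.length * c0 ∧
      ∀ f ∈ Submodule.span E {g | g ∈ b}, IsUG G f := by
  classical
  choose! Gf hG1 hG2 using hb
  refine ⟨b.toFinset.biUnion Gf, ?_, ?_⟩
  · refine (Finset.card_biUnion_le_card_mul _ _ c0 fun g hg => hG1 g (List.mem_toFinset.1 hg)).trans ?_
    exact Nat.mul_le_mul_right _ (List.toFinset_card_le b)
  · obtain ⟨-, -, ⟨S, hS⟩, -⟩ := hfgp E (b.toFinset.biUnion Gf) 0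
    intro f hf
    rw [← hS]
    refine (Submodule.span_le.2 ?_) hf
    intro g hg
    show g ∈ S
    rw [hS]
    obtain ⟨-, -, -, -, h5⟩ := hfgp E (Gf g) g
    refine h5 _ ?_ (hG2 g hg)
    exact Finset.subset_biUnion_of_mem Gf (List.mem_toFinset.2 hg)

end

theorem stp (hfil : FilStmt) (hdsc : DscStmt) (hdet : DetStmt) (hrew : RewStmt) (hpiv : PivStmt)
    (hfgm : FgmStmt) (hfgp : FgpStmt) (hfgs : FgsStmt) (hrrs : RrsStmt) (hzer : ZerStmt)
    (hwwm : WwmStmt) : StpStmt := by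
  classical
  intro c0 R c ρ
  obtain ⟨c1, r1, N1, hD⟩ := hdsc c0 ρ c c ((R + 1) * c0)
  obtain ⟨N2, m, hF⟩ := hfil c0 ρ c (r1 + ρ)
  refine ⟨max c c1, r1 + 2 * ρ, max (max N1 N2) (r1 + ρ), m, le_max_left _ _, ?_⟩
  intro N hN E D _ _ _ _ _ ζ hζ W hW hZ
  have hN1 : N1 ≤ N := (le_max_left _ _).trans ((le_max_left _ _).trans hN)
  have hN2 : N2 ≤ N := (le_max_right _ _).trans ((le_max_left _ _).trans hN)
  have hN3 : r1 + ρ ≤ N := (le_max_right _ _).trans hN
  obtain ⟨n, H, b, hT, hWs⟩ := decomp hfgs hrrs c0 N R c ρ W hW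
  obtain ⟨w1, -, -, -, -, w6⟩ := hwwm E c0
  obtain ⟨m1, m2, m3, m4, m5⟩ := hfgm E
  obtain ⟨S1, hS1⟩ := hfgs E c ∅
  obtain ⟨-, ⟨S2, hS2⟩, -, -, -, -⟩ := hrrs E c
  -- the spans
  let Mt : Fin n → Submodule E (MvPolynomial ℕ E) := fun t => Submodule.span E {g | g ∈ b t}
  have hfin : ∀ t, Module.Finite E (Mt t) := by
    intro t
    have h1 : {g | g ∈ b t} = ((b t).toFinset : Set (MvPolynomial ℕ E)) := by
      ext g
      simp
    show Module.Finite E (Submodule.span E {g | g ∈ b t})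
    rw [h1]
    infer_instance
  let top : Finset (Fin n) := Finset.univ.filter fun t => (b t).length = R + 1 ∧
    Robust N (Mt t) ∧ Module.finrank E (Mt t) = ρ
  let w : Fin n → FF E := fun t => H t / io E (b t).prod
  -- the terms which are not rewritten
  have hrest : ∀ t ∉ top, w t ∈ GT E c0 N (R + 1) (max c c1) (ρ + 1) ⊔
      BT E c0 N (R + 1) (max c c1) ⊔ WW E c0 R (max c c1) := by
    intro t ht
    obtain ⟨k1, k2, k3, k4, k5⟩ := hT t
    by_cases hl : (b t).length = R + 1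
    · by_cases hr : Robust N (Mt t)
      · refine Submodule.mem_sup_left (Submodule.mem_sup_left ?_)
        refine (w6 (R + 1) c (max c c1) N (ρ + 1) (le_max_left _ _)).1 ?_
        refine Submodule.subset_span ⟨H t, b t, k1, k2, hl, k3, hr, ?_, rfl⟩
        have h1 := k5 hl hr
        have h2 : Module.finrank E (Mt t) ≠ ρ := by
          intro h3
          exact ht (Finset.mem_filter.2 ⟨Finset.mem_univ _, hl, hr, h3⟩)
        have h3 : ρ ≤ Module.finrank E (Mt t) := h1
        show ρ + 1 ≤ Module.finrank E (Mt t)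
        omega
      · refine Submodule.mem_sup_left (Submodule.mem_sup_right ?_)
        refine (w6 (R + 1) c (max c c1) N (ρ + 1) (le_max_left _ _)).2 ?_
        exact Submodule.subset_span ⟨H t, b t, k1, k2, hl, k3, hr, rfl⟩
    · refine Submodule.mem_sup_right ?_
      refine w1 R R c (max c c1) le_rfl (le_max_left _ _) ?_
      exact Submodule.subset_span ⟨H t, b t, k1, k2, by omega, k3, rfl⟩
  -- the terms of one span
  have hspan : ∀ M ∈ top.image Mt, ∑ t ∈ top with Mt t = M, w t ∈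
      WW E c0 R (max c c1) := by
    intro M hM
    obtain ⟨t0, ht0, rfl⟩ := Finset.mem_image.1 hM
    obtain ⟨-, hl0, hr0, hf0⟩ := Finset.mem_filter.1 ht0
    have := hfin t0
    obtain ⟨y, hy, hyM⟩ := exists_basis (Mt t0) hf0
    obtain ⟨G, hGc, hG⟩ := junta_set hfgp c0 (b t0) fun g hg => ((hT t0).2.2.1 g hg).2
    rw [hl0] at hGc
    have hyU : ∀ a, IsUG G (y a) := by
      intro a
      refine hG _ ?_
      show y a ∈ Mt t0
      rw [← hyM]
      exact Submodule.subset_span ⟨a, rfl⟩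
    have hyR : Robust N (Submodule.span E (Set.range y)) := by
      rw [hyM]
      exact hr0
    -- the index set
    let TM : Finset (Fin n) := Finset.univ.filter fun t => (b t).length = R + 1 ∧
      ∀ g ∈ b t, g ∈ Submodule.span E (Set.range y)
    have hTM : ∀ t ∈ TM, (b t).length = R + 1 ∧ Mt t = Mt t0 := by
      intro t ht
      obtain ⟨-, h1, h2⟩ := Finset.mem_filter.1 ht
      refine ⟨h1, ?_⟩
      have h3 : Mt t ≤ Mt t0 := by
        rw [← hyM]
        exact Submodule.span_le.2 h2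
      have h4 : Robust N (Mt t) := fun g hg h0 => hr0 g (h3 hg) h0
      have h5 : ρ ≤ Module.finrank E (Mt t) := (hT t).2.2.2.2 h1 h4
      exact Submodule.eq_of_le_of_finrank_le h3 (hf0.le.trans h5)
    have hTM2 : (top.filter fun t => Mt t = Mt t0) = TM := by
      ext t
      rw [Finset.mem_filter, Finset.mem_filter, Finset.mem_filter]
      constructor
      · rintro ⟨⟨-, h1, h2, h3⟩, h4⟩
        refine ⟨Finset.mem_univ _, h1, fun g hg => ?_⟩
        rw [hyM, ← h4]
        exact Submodule.subset_span hg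
      · rintro ⟨-, h1, h2⟩
        obtain ⟨h3, h4⟩ := hTM t (Finset.mem_filter.2 ⟨Finset.mem_univ _, h1, h2⟩)
        refine ⟨⟨Finset.mem_univ _, h1, ?_, ?_⟩, h4⟩
        · rw [h4]
          exact hr0
        · rw [h4]
          exact hf0
    let S : Finset (MvPolynomial ℕ E) := (Finset.univ.biUnion fun t => (b t).toFinset).filter
      fun g => g ∈ Submodule.span E (Set.range y)
    have hS : ∀ t, ∀ g ∈ b t, g ∈ Submodule.span E (Set.range y) → g ∈ S := by
      intro t g hg hgM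
      exact Finset.mem_filter.2 ⟨Finset.mem_biUnion.2 ⟨t, Finset.mem_univ _,
        List.mem_toFinset.2 hg⟩, hgM⟩
    have key : ∀ θ : MvPolynomial ℕ E →ₗ[E] E, (∀ g ∈ S, θ g ≠ 0) → ∃ h : Fin ρ → FF E,
        ∑ t : TM, (((b t).map θ).prod)⁻¹ • H t = ∑ a, io E (y a) * h a ∧
          ∀ a, FG c1 ∅ (h a) ∧ RR c1 (h a) := by
      intro θ hθ
      have hFG : FG c ∅ (∑ t : TM, (((b t).map θ).prod)⁻¹ • H t) := by
        rw [← hS1]
        exact S1.sum_mem fun t _ => S1.smul_mem _ ((hS1 _).2 (hT t).2.1)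
      have hRR : RR c (∑ t : TM, (((b t).map θ).prod)⁻¹ • H t) := by
        rw [← hS2]
        exact S2.sum_mem fun t _ => S2.smul_mem ((hS2 _).2 (hT t).1) _
      refine hD E y G _ hGc hy hyU (fun g hg h0 => hN1.trans (hyR g hg h0))
        (m1 c ∅ G _ (Finset.empty_subset _) hFG) hRR ?_
      intro J1 hGJ hJ1
      obtain ⟨z, hz, hzJ⟩ := hpiv E ρ N y G hy hyU hyR J1 hGJ (by omega)
      have hcard : (J1 ∪ Finset.univ.image z).card ≤ r1 + ρ := by
        refine (Finset.card_union_le _ _).trans ?_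
        have h4 : (Finset.univ.image z).card ≤ ρ := by
          refine Finset.card_image_le.trans ?_
          simp
        omega
      obtain ⟨J, hJJ, hJc, Fi, hFi, hZe⟩ := hF E D y ζ G (J1 ∪ Finset.univ.image z) hy hyU
        (hGJ.trans Finset.subset_union_left) hcard (fun g hg h0 => hN2.trans (hyR g hg h0)) hζ
      refine ⟨Fi, filt_mono Finset.subset_union_left hFi, ?_⟩
      have hdet' := hdet E ρ c0 c (R + 1) y G (J1 ∪ Finset.univ.image z) z Fi hyU
        (hGJ.trans Finset.subset_union_left) hz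
        (fun i => Finset.mem_union_right _ (Finset.mem_image_of_mem _ (Finset.mem_univ _)))
        hFi (Fin n) H b (fun t => rr_fi hFi _ (hT t).1) (fun t => (hT t).2.2.2.1)
        (fun t => (hT t).2.2.1) ?_ θ (fun t g hg hgM => hθ g (hS t g hg hgM))
      · have h7 : ∑ t : TM, (((b t).map θ).prod)⁻¹ • H t =
            ∑ t ∈ TM, (((b t).map θ).prod)⁻¹ • H t :=
          Finset.sum_coe_sort TM fun t => (((b t).map θ).prod)⁻¹ • H t
        rw [h7]
        have h8 : TM = Finset.univ.filter fun t => (b t).length = R + 1 ∧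
            ∀ g ∈ b t, g ∈ Submodule.span E (Set.range y) := rfl
        rw [h8]
        exact hdet'
      · intro Q hQ
        rw [← hWs] at hQ ⊢
        obtain ⟨-, z2, -⟩ := hzer E D ζ J
        exact hZe _ (z2 Q W (hZ J (by omega))) hQ
    have hres := hrew E ρ c0 R c1 y hy S ?_ TM (fun t => H t) (fun t => b t) ?_ ?_ ?_ key
    · rw [hTM2]
      have h9 : ∑ t : TM, H t / io E (b t).prod = ∑ t ∈ TM, w t :=
        Finset.sum_coe_sort TM w
      rw [← h9]
      exact w1 R R c1 (max c c1) le_rfl (le_max_right _ _) hres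
    · intro g hg
      obtain ⟨h1, h2⟩ := Finset.mem_filter.1 hg
      obtain ⟨t, -, h3⟩ := Finset.mem_biUnion.1 h1
      exact ⟨((hT t).2.2.1 g (List.mem_toFinset.1 h3)).1, h2⟩
    · exact fun t => (hTM t t.2).1
    · intro t g hg
      have h1 := (hT t).2.2.1 g hg
      refine ⟨hS t g hg ?_, h1.1, h1.2⟩
      exact (Finset.mem_filter.1 t.2).2.2 g hg
    · intro t
      rw [hyM]
      exact (hTM t t.2).2
  -- collect
  have hsum : W = ∑ t ∈ top, w t + ∑ t ∈ topᶜ, w t := by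
    rw [hWs]
    exact (Finset.sum_add_sum_compl top w).symm
  rw [hsum]
  refine Submodule.add_mem _ ?_ ?_
  · have h1 : ∑ t ∈ top, w t = ∑ M ∈ top.image Mt, ∑ t ∈ top with Mt t = M, w t :=
      (Finset.sum_fiberwise_of_maps_to (fun t ht => Finset.mem_image_of_mem Mt ht) w).symm
    rw [h1]
    refine Submodule.sum_mem _ fun M hM => ?_
    exact Submodule.mem_sup_right (hspan M hM)
  · refine Submodule.sum_mem _ fun t ht => ?_
    exact hrest t (Finset.mem_compl.1 ht)

end Pool.Agent.PW.H14
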