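import Pool.Agent.Helper14_PW.FIL
import Pool.Agent.Helper14_PW.STP
import Pool.Agent.Helper15_PW.EUF
import Pool.Agent.Helper18_PW.ZER
import Pool.Agent.Helper19_PW.LOC
import Pool.Agent.Helper20_PW.EUL
import Pool.Agent.Helper22_PW.Pt
import Pool.Agent.Helper24_PW.FGX
import Pool.Agent.Helper26_PW.DLT
import Pool.Agent.Helper26_PW.EPS
import Pool.Agent.Helper26_PW.RID
import Pool.Agent.Helper27_PW.FGS
import Pool.Agent.Helper41_PW.BAD
import Pool.Agent.Helper47_PW.LIN
import Pool.Agent.Helper47_PW.WWM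
import Pool.Agent.Helper48_PW.FGM
import Pool.Agent.Helper51_PW.DSC
import Pool.Agent.Helper58_PW.PIV
import Pool.Agent.Helper58_PW.PIVS
import Pool.Agent.Helper58_PW.PNT
import Pool.Agent.Helper60_PW.REW
import Pool.Agent.Helper60_PW.VAN
import Pool.Agent.Helper68_PW.DDL
import Pool.Agent.Helper68_PW.DFI
import Pool.Agent.Helper68_PW.THP
import Pool.Agent.Helper74_PW.DET
import Pool.Agent.Helper81_PW.RRS
import Pool.Agent.Helper85_PW.FGZ
import Pool.Agent.Helper92_PW.FGP
import Pool.Agent.Helper99_PW.DER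

set_option autoImplicit false

/-! Theorem P without hypotheses. -/

namespace Pool.Agent.PW.H14

theorem der' : DerStmt := H99.der
theorem fgs' : FgsStmt := H27.fgs
theorem fgm' : FgmStmt := H48.fgm der'
theorem fgx' : FgxStmt := H24.fgx fgs' fgm'
theorem fgz' : FgzStmt := H85.fgz der'
theorem fgp' : FgpStmt := H92.fgp der'
theorem rrs' : RrsStmt := H81.rrs der'
theorem dlt' : DltStmt := H26.dlt der' fgp'
theorem euf' : EufStmt := H15.euf fgs' fgm' fgx' fgz' fgp' rrs' dlt'
theorem van' : VanStmt := H60.van fgz'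
theorem dsc' : DscStmt := H51.dsc H58.pivs van' euf' fgs' fgm' rrs'
theorem loc' : LocStmt := H19.loc H20.eul der' dlt'
theorem pnt' : PntStmt := H58.pnt
theorem fil' : FilStmt := fil loc' pnt'
theorem dfi' : DfiStmt := H68.dfi dlt'
theorem det' : DetStmt := H74.det dfi' H68.ddl dlt'
theorem wwm' : WwmStmt := H47.wwm fgm' fgs' rrs'
theorem rew' : RewStmt := H60.rew H47.lin H26.rid wwm' fgs' rrs'
theorem bad' : BadStmt := H41.bad wwm' fgm' fgx' fgz' rrs'
theorem zer' : ZerStmt := H18.zer der'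
theorem bas' : BasStmt := H81.bas zer' fgz'
theorem stp' : StpStmt := stp fil' dsc' det' rew' H58.piv fgm' fgp' fgs' rrs' zer' wwm'

/-- **Theorem P.** -/
theorem thp' : ThpStmt := H68.thp stp' bad' wwm' bas'

end Pool.Agent.PW.H14
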