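import Pool.Agent.PW.StmtsA
import Pool.Agent.PW.StmtsB

set_option autoImplicit false

/-! Row FIL: filtrations exist. -/

namespace Pool.Agent.PW.H14

open MvPolynomial
open Pool.Agent.RS (FF io)

theorem fil (hl : LocStmt) (hp : PntStmt) : FilStmt := by
  intro c0 ρ k r
  obtain ⟨k', hk'⟩ : ∃ k', k' = max k (r + ρ + c0 + ρ + 1) := ⟨_, rfl⟩
  have hk1 : k ≤ k' := by rw [hk']; exact le_max_left _ _
  have hk2 : r + ρ + c0 + ρ + 1 ≤ k' := by rw [hk']; exact le_max_right _ _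
  refine ⟨r + ρ + k' + ρ, k' + ρ + 1, ?_⟩
  intro E D _ _ _ _ _ y ζ G J1 hy hU hG hJ hR hF
  obtain ⟨z, Om, _, _, e, hz, hzJ, h1, h2, h3⟩ := hp E D ζ (k' + ρ + 1) ρ (r + ρ + k' + ρ) k' c0 y G
    J1 hF hy hU hR hG (by omega) (by omega) (le_refl _)
  obtain ⟨Fi, hFi, hZ⟩ := hl E D ρ c0 k y ζ G J1 (J1 ∪ Finset.univ.image z) Om e.toRingHom hU hG
    Finset.subset_union_left h1
    (fun h h0 hv => h2 h h0 ((Finset.card_le_card hv).trans (by omega)))
    (fun h h0 hv => h2 h h0 (hv.trans hk1)) h3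
  refine ⟨J1 ∪ Finset.univ.image z, Finset.subset_union_left, ?_, Fi, hFi, hZ⟩
  refine (Finset.card_union_le _ _).trans ?_
  have h4 : (Finset.univ.image z).card ≤ ρ := by
    refine Finset.card_image_le.trans ?_
    simp
  omega

end Pool.Agent.PW.H14
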